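import Pool.Agent.H33.HH.TC

/-!
# Row LA0 of hha_modules: sums over a lattice
-/

set_option autoImplicit false
set_option linter.unusedSimpArgs false

open Complex MeasureTheory
open scoped ContDiff

namespace Pool.Agent.H86.HH

open Pool.Agent.H33.HH

noncomputable section

/-- the linear map `(x, y) ↦ x u₁ + y u₂` -/
def Lm (u₁ u₂ : ℂ) : ℝ × ℝ →L[ℝ] ℂ :=
  (ContinuousLinearMap.fst ℝ ℝ ℝ).smulRight u₁ + (ContinuousLinearMap.snd ℝ ℝ ℝ).smulRight u₂

theorem Lm_apply (u₁ u₂ : ℂ) (v : ℝ × ℝ) : Lm u₁ u₂ v = v.1 * u₁ + v.2 * u₂ := by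
  simp [Lm]

/-- the change of variables -/
theorem intL (u₁ u₂ c : ℂ) (hD : (u₁ * (starRingEnd ℂ) u₂).im ≠ 0) (F : ℂ → ℝ) :
    ∫ v : ℝ × ℝ, F (Lm u₁ u₂ v - c) = |(u₁ * (starRingEnd ℂ) u₂).im|⁻¹ * ∫ z, F z := by
  obtain ⟨T, hT⟩ : ∃ T, T = Matrix.toLin (Module.Basis.finTwoProd ℝ) (Module.Basis.finTwoProd ℝ)
      !![u₁.re, u₂.re; u₁.im, u₂.im] := ⟨_, rfl⟩
  have hdet : LinearMap.det T = -(u₁ * (starRingEnd ℂ) u₂).im := by
    rw [hT, LinearMap.det_toLin, Matrix.det_fin_two_of]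
    simp only [Complex.mul_im, Complex.conj_re, Complex.conj_im]
    ring
  have hdet0 : LinearMap.det T ≠ 0 := by
    rw [hdet]
    exact neg_ne_zero.2 hD
  have hTv : ∀ v : ℝ × ℝ, T v = ((Lm u₁ u₂ v).re, (Lm u₁ u₂ v).im) := by
    intro v
    rw [hT, Matrix.toLin_finTwoProd_apply, Lm_apply]
    simp only [Complex.add_re, Complex.mul_re, Complex.ofReal_re, Complex.ofReal_im,
      Complex.add_im, Complex.mul_im]
    ext <;> ring
  -- the function on the plane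
  obtain ⟨G, hG⟩ : ∃ G : ℝ × ℝ → ℝ, G = fun p => F (⟨p.1, p.2⟩ - c) := ⟨_, rfl⟩
  have e1 : (fun v : ℝ × ℝ => F (Lm u₁ u₂ v - c)) = fun v => G (T v) := by
    funext v
    rw [hTv, hG]
  have hTm : Measurable T := (LinearMap.continuous_of_finiteDimensional T).measurable
  have hemb : MeasurableEmbedding T := by
    have h := (LinearEquiv.ofIsUnitDet (f := T) (v := Module.Basis.finTwoProd ℝ)
      (v' := Module.Basis.finTwoProd ℝ) (by
        rw [LinearMap.det_toMatrix]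
        exact isUnit_iff_ne_zero.2 hdet0)).toContinuousLinearEquiv.toHomeomorph.measurableEmbedding
    exact h
  have e2 : ∫ v, G (T v) = ∫ p, G p ∂(Measure.map T volume) :=
    (hemb.integral_map G).symm
  have e3 : ∫ p, G p = ∫ z, F z := by
    have h1 := (Complex.volume_preserving_equiv_real_prod.symm).integral_comp
      Complex.measurableEquivRealProd.symm.measurableEmbedding (fun z => F (z - c))
    have h2 : (fun p : ℝ × ℝ => F (Complex.measurableEquivRealProd.symm p - c)) = G := by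
      funext p
      rw [hG]
      rfl
    rw [h2] at h1
    rw [h1]
    exact integral_sub_right_eq_self F c
  rw [e1, e2, Measure.map_linearMap_addHaar_eq_smul_addHaar volume hdet0, integral_smul_measure, e3,
    hdet, ENNReal.toReal_ofReal (abs_nonneg _), abs_inv, abs_neg, smul_eq_mul]

theorem pf_LA0 (h : T_EM2) : T_LA0 := by
  intro w₁ w₂ k B hD hk hB
  obtain ⟨C0, hC0, hEM⟩ := h k hk
  obtain ⟨D, hDd⟩ : ∃ D, D = (w₁ * (starRingEnd ℂ) w₂).im := ⟨_, rfl⟩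
  rw [← hDd] at hD ⊢
  have hDpos : 0 < |D| := abs_pos.2 hD
  have hw1 : w₁ ≠ 0 := by
    rintro rfl
    exact hD (by rw [hDd]; simp)
  have hw1' : 0 < ‖w₁‖ := norm_pos_iff.2 hw1
  obtain ⟨B2, hB2⟩ : ∃ B2, B2 = (‖w₁‖ + ‖w₂‖) / |D| := ⟨_, rfl⟩
  have hB2pos : 0 < B2 := by rw [hB2]; positivity
  -- coordinates
  have hco : ∀ x y : ℝ, |x| ≤ B2 * ‖Lm w₁ w₂ (x, y)‖ ∧ |y| ≤ B2 * ‖Lm w₁ w₂ (x, y)‖ := by
    intro x y
    have h1 : ((Lm w₁ w₂ (x, y)) * (starRingEnd ℂ) w₂).im = x * D := by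
      rw [Lm_apply, hDd]
      simp only [Complex.mul_im, Complex.mul_re, Complex.add_im, Complex.add_re,
        Complex.conj_re, Complex.conj_im, Complex.ofReal_re, Complex.ofReal_im]
      ring
    have h2 : ((Lm w₁ w₂ (x, y)) * (starRingEnd ℂ) w₁).im = -(y * D) := by
      rw [Lm_apply, hDd]
      simp only [Complex.mul_im, Complex.mul_re, Complex.add_im, Complex.add_re,
        Complex.conj_re, Complex.conj_im, Complex.ofReal_re, Complex.ofReal_im]
      ring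
    have h3 : |x| * |D| ≤ ‖Lm w₁ w₂ (x, y)‖ * ‖w₂‖ := by
      rw [← abs_mul, ← h1]
      refine (Complex.abs_im_le_norm _).trans ?_
      rw [norm_mul, RCLike.norm_conj]
    have h4 : |y| * |D| ≤ ‖Lm w₁ w₂ (x, y)‖ * ‖w₁‖ := by
      rw [← abs_mul, ← abs_neg, ← h2]
      refine (Complex.abs_im_le_norm _).trans ?_
      rw [norm_mul, RCLike.norm_conj]
    have h5 : 0 ≤ ‖Lm w₁ w₂ (x, y)‖ := norm_nonneg _
    rw [hB2]
    constructor
    · rw [div_mul_eq_mul_div, le_div_iff₀ hDpos]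
      nlinarith [norm_nonneg w₂]
    · rw [div_mul_eq_mul_div, le_div_iff₀ hDpos]
      nlinarith [norm_nonneg w₂]
  obtain ⟨B1, hB1⟩ : ∃ B1, B1 = ‖Lm w₁ w₂‖ := ⟨_, rfl⟩
  have hB1' : 0 ≤ B1 := by rw [hB1]; exact norm_nonneg _
  refine ⟨C0 * (B + B2) ^ 2 * B1 ^ k, by positivity, ?_⟩
  intro α c R M F hα hR hαR hF hF0 hFM
  have hαpos : 0 < ‖α‖ := norm_pos_iff.2 hα
  have hRc : (R : ℂ) ≠ 0 := by exact_mod_cast hR.ne'
  obtain ⟨t, ht⟩ : ∃ t, t = R / ‖α‖ := ⟨_, rfl⟩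
  have htpos : 0 < t := by rw [ht]; positivity
  have hM : 0 ≤ M := (norm_nonneg _).trans (hFM 0)
  obtain ⟨β, hβ⟩ : ∃ β : ℂ, β = α / R := ⟨_, rfl⟩
  have hβn : ‖β‖ = 1 / t := by
    rw [hβ, ht, norm_div, Complex.norm_real, Real.norm_eq_abs, abs_of_pos hR, one_div_div]
  -- the linear map
  have hLβ : ∀ v : ℝ × ℝ, Lm (β * w₁) (β * w₂) v = β * Lm w₁ w₂ v := by
    intro v
    rw [Lm_apply, Lm_apply]
    ring
  have hLn : ‖Lm (β * w₁) (β * w₂)‖ ≤ B1 / t := by
    refine ContinuousLinearMap.opNorm_le_bound _ (by positivity) fun v => ?_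
    rw [hLβ, norm_mul, hβn, hB1]
    calc 1 / t * ‖Lm w₁ w₂ v‖ ≤ 1 / t * (‖Lm w₁ w₂‖ * ‖v‖) := by
          gcongr
          exact ContinuousLinearMap.le_opNorm _ _
      _ = ‖Lm w₁ w₂‖ / t * ‖v‖ := by ring
  -- the function
  obtain ⟨f, hf⟩ : ∃ f : ℝ × ℝ → ℝ, f = fun v => F (Lm (β * w₁) (β * w₂) v - c / R) := ⟨_, rfl⟩
  have hfc : f = (fun z => F (z - c / R)) ∘ Lm (β * w₁) (β * w₂) := by rw [hf]; rfl
  have hFs : ContDiff ℝ ∞ (fun z => F (z - c / R)) := hF.comp (contDiff_id.sub contDiff_const)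
  have hfs : ContDiff ℝ ∞ f := by
    rw [hfc]
    exact hFs.comp (Lm (β * w₁) (β * w₂)).contDiff
  have hfd : ∀ v, ‖iteratedFDeriv ℝ k f v‖ ≤ M * (B1 / t) ^ k := by
    intro v
    rw [hfc, ContinuousLinearMap.iteratedFDeriv_comp_right _ hFs v (by exact_mod_cast le_top),
      iteratedFDeriv_comp_sub]
    refine (ContinuousMultilinearMap.norm_compContinuousLinearMap_le _ _).trans ?_
    rw [Finset.prod_const, Finset.card_univ, Fintype.card_fin]
    gcongr
    exact hFM _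
  -- the centre
  obtain ⟨p, hp⟩ : ∃ p : ℝ × ℝ, Lm (β * w₁) (β * w₂) p = c / R := by
    refine ⟨((c / α * (starRingEnd ℂ) w₂).im / D, (w₁ * (starRingEnd ℂ) (c / α)).im / D), ?_⟩
    rw [hLβ]
    have h1 : Lm w₁ w₂ ((c / α * (starRingEnd ℂ) w₂).im / D,
        (w₁ * (starRingEnd ℂ) (c / α)).im / D) = c / α := by
      generalize c / α = z
      have h2 : (D : ℂ) * Lm w₁ w₂ ((z * (starRingEnd ℂ) w₂).im / D,
          (w₁ * (starRingEnd ℂ) z).im / D) = D * z := by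
        rw [Lm_apply]
        have hDc : (D : ℂ) ≠ 0 := by exact_mod_cast hD
        push_cast
        have h3 : (D : ℂ) * ((((z * (starRingEnd ℂ) w₂).im : ℝ) : ℂ) / D * w₁ +
            (((w₁ * (starRingEnd ℂ) z).im : ℝ) : ℂ) / D * w₂) =
            (((z * (starRingEnd ℂ) w₂).im : ℝ) : ℂ) * w₁ +
            (((w₁ * (starRingEnd ℂ) z).im : ℝ) : ℂ) * w₂ := by
          field_simp
        rw [h3, hDd]
        apply Complex.ext
        · simp only [Complex.mul_im, Complex.mul_re, Complex.add_im, Complex.add_re,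
            Complex.conj_re, Complex.conj_im, Complex.ofReal_re, Complex.ofReal_im]
          ring
        · simp only [Complex.mul_im, Complex.mul_re, Complex.add_im, Complex.add_re,
            Complex.conj_re, Complex.conj_im, Complex.ofReal_re, Complex.ofReal_im]
          ring
      exact mul_left_cancel₀ (by exact_mod_cast hD) h2
    rw [h1, hβ]
    field_simp
  have hsup : ∀ x : ℝ × ℝ, (B2 * t < |x.1 - p.1| ∨ B2 * t < |x.2 - p.2|) → f x = 0 := by
    intro x hx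
    rw [hf]
    apply hF0
    have h1 : Lm (β * w₁) (β * w₂) x - c / R = β * Lm w₁ w₂ (x.1 - p.1, x.2 - p.2) := by
      rw [← hp, ← map_sub, hLβ]
      rfl
    show 1 < ‖Lm (β * w₁) (β * w₂) x - c / R‖
    rw [h1, norm_mul, hβn]
    obtain ⟨h2, h3⟩ := hco (x.1 - p.1) (x.2 - p.2)
    have h4 : B2 * t < B2 * ‖Lm w₁ w₂ (x.1 - p.1, x.2 - p.2)‖ := by
      rcases hx with hx | hx
      · exact hx.trans_le h2
      · exact hx.trans_le h3
    have h5 : t < ‖Lm w₁ w₂ (x.1 - p.1, x.2 - p.2)‖ := lt_of_mul_lt_mul_left h4 hB2pos.le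
    rw [one_div, inv_mul_eq_div, one_lt_div htpos]
    exact h5
  have hmain := hEM f p (B2 * t) (M * (B1 / t) ^ k) hfs (by positivity) hsup hfd
  -- the sum and the integral
  have hD' : ((β * w₁) * (starRingEnd ℂ) (β * w₂)).im = ‖β‖ ^ 2 * D := by
    rw [hDd, map_mul]
    have h1 : β * w₁ * ((starRingEnd ℂ) β * (starRingEnd ℂ) w₂) =
        (β * (starRingEnd ℂ) β) * (w₁ * (starRingEnd ℂ) w₂) := by ring
    rw [h1, Complex.mul_conj, Complex.normSq_eq_norm_sq, Complex.im_ofReal_mul]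
  have hint : ∫ x, f x = R ^ 2 / (‖α‖ ^ 2 * |D|) * ∫ z, F z := by
    rw [hf, intL _ _ _ (by
      rw [hD', hβn]
      exact mul_ne_zero (by positivity) hD), hD', abs_mul, abs_of_nonneg (by positivity), hβn, ht]
    congr 1
    field_simp
  have hsum : (∑' z : ℤ × ℤ, f (z.1, z.2)) =
      ∑' z : ℤ × ℤ, F ((α * (z.1 * w₁ + z.2 * w₂) - c) / R) := by
    refine tsum_congr fun z => ?_
    rw [hf]
    show F _ = F _
    congr 1
    rw [Lm_apply, hβ]
    push_cast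
    field_simp
  rw [hsum, hint] at hmain
  refine hmain.trans ?_
  -- the bound
  have ht1 : 1 ≤ B * t := by
    rw [ht, mul_div_assoc', le_div_iff₀ hαpos, one_mul]
    exact hαR
  have h1 : (1 + B2 * t) ^ 2 ≤ ((B + B2) * t) ^ 2 := by
    have : 0 ≤ B2 * t := by positivity
    gcongr
    nlinarith
  have h2 : t ^ (2 - (k : ℝ)) = t ^ 2 / t ^ k := by
    rw [Real.rpow_sub htpos, Real.rpow_natCast]
    norm_num
  rw [← ht, h2]
  calc C0 * (1 + B2 * t) ^ 2 * (M * (B1 / t) ^ k)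
      ≤ C0 * ((B + B2) * t) ^ 2 * (M * (B1 / t) ^ k) := by
        have : 0 ≤ M * (B1 / t) ^ k := by positivity
        gcongr
    _ = C0 * (B + B2) ^ 2 * B1 ^ k * M * (t ^ 2 / t ^ k) := by
        rw [div_pow]
        field_simp

end

end Pool.Agent.H86.HH
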